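import Pool.Agent.Q7.LK.Stm3
import Pool.Agent.Q123.LK.CR1A

/-!
# Project LK (helper7), job CR1AM: relations between units of relative norm `1`
-/

set_option autoImplicit false

namespace Pool.Agent.Q151.LKM

open NumberField IsDedekindDomain Filter Topology Finset Module
open Pool.Agent.Q7.LK Pool.Agent.Q123.LK
open Pool.Agent.Q14.LQS (cgs mem_cgs prod_pow_comb unit_basis sU sU_coe nU nU_coe nU_eq_one eU sU_cgs)

theorem exists_indep {p : ℕ} [Fact p.Prime] {n k : ℕ} (V : Submodule ℤ_[p] (Fin n → ℤ_[p]))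
    (h : k ≤ finrank ℤ_[p] V) :
    ∃ b : Fin k → Fin n → ℤ_[p], LinearIndependent ℤ_[p] b ∧ ∀ i, b i ∈ V := by
  have B := finBasis ℤ_[p] V
  have h2 : LinearIndependent ℤ_[p] fun i : Fin k => B (Fin.castLE h i) :=
    B.linearIndependent.comp _ (Fin.castLE_injective h)
  exact ⟨fun i => (B (Fin.castLE h i) : Fin n → ℤ_[p]), h2.map' V.subtype (Submodule.ker_subtype _),
    fun i => (B (Fin.castLE h i)).2⟩

/-- independent vectors in the kernel of a linear map -/
theorem la2 (p : ℕ) [Fact p.Prime] (s t n q : ℕ) (a : Fin (s + t) → Fin n → ℤ_[p])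
    (ha : LinearIndependent ℤ_[p] a) (φ : (Fin n → ℤ_[p]) →ₗ[ℤ_[p]] (Fin q → ℤ_[p]))
    (hno : ¬ ∃ x : Fin (s + 1) → Fin n → ℤ_[p], (∀ i, x i ∈ Submodule.span ℤ_[p] (Set.range a)) ∧
      LinearIndependent ℤ_[p] fun i => φ (x i)) :
    ∃ b : Fin t → Fin n → ℤ_[p], LinearIndependent ℤ_[p] b ∧
      ∀ i, b i ∈ Submodule.span ℤ_[p] (Set.range a) ∧ φ (b i) = 0 := by
  obtain ⟨V, hV⟩ : ∃ V : Submodule ℤ_[p] (Fin n → ℤ_[p]), V = Submodule.span ℤ_[p] (Set.range a) :=
    ⟨_, rfl⟩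
  rw [← hV] at hno ⊢
  obtain ⟨ψ, hψ⟩ : ∃ ψ : V →ₗ[ℤ_[p]] (Fin q → ℤ_[p]), ∀ x : V, ψ x = φ x :=
    ⟨φ.domRestrict V, fun x => rfl⟩
  have hfV : finrank ℤ_[p] V = s + t := by
    have h2 := finrank_eq_card_basis (Basis.span ha)
    rw [Fintype.card_fin] at h2
    rw [hV]
    exact h2
  have hrn : finrank ℤ_[p] (LinearMap.range ψ) + finrank ℤ_[p] (LinearMap.ker ψ) =
      finrank ℤ_[p] V := by
    rw [← Submodule.finrank_quotient_add_finrank (LinearMap.ker ψ)]
    congr 1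
    exact (LinearEquiv.finrank_eq ψ.quotKerEquivRange).symm
  have hle : finrank ℤ_[p] (LinearMap.range ψ) ≤ s := by
    by_contra hcon
    push Not at hcon
    apply hno
    obtain ⟨b, hb, hb2⟩ := exists_indep (LinearMap.range ψ) (Nat.succ_le_of_lt hcon)
    choose x hx using hb2
    refine ⟨fun i => x i, fun i => (x i).2, ?_⟩
    have h4 : (fun i => φ (x i)) = b := by
      funext i
      rw [← hψ]
      exact hx i
    rw [h4]
    exact hb
  have hker : t ≤ finrank ℤ_[p] (Submodule.map V.subtype (LinearMap.ker ψ)) := by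
    have h1 := LinearEquiv.finrank_eq
      (Submodule.equivMapOfInjective V.subtype V.injective_subtype (LinearMap.ker ψ))
    rw [← h1]
    omega
  obtain ⟨b, hb, hb2⟩ := exists_indep _ hker
  refine ⟨b, hb, fun i => ?_⟩
  obtain ⟨x, hx, hxb⟩ := hb2 i
  rw [← hxb]
  refine ⟨x.2, ?_⟩
  have h5 : ψ x = 0 := hx
  rw [hψ] at h5
  exact h5

/-- **JOB CR1AM** -/
theorem cr1am : S_CR1AM := by
  intro p _ _ F L _ _ _ _ _ ζ d hζ hKum hd I _ s t hF hL
  classical
  have hpp : p.Prime := Fact.out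
  have hgal : IsGalois F L := isGalois_kum hζ hKum hd
  obtain ⟨n, ε, hε, a, ha, hrel⟩ := hL
  obtain ⟨q, δ, hFF, hFF0, -, hδ, hFspan⟩ := unit_basis (K := F) ⊤
  obtain ⟨P, θ, h, hh0, hθE, hθ, hspan⟩ := unit_basis (K := L) (nU F : (𝓞 L)ˣ →* (𝓞 F)ˣ).ker
  -- the map to the units of norm `1`
  let dU : (𝓞 L)ˣ →* (𝓞 L)ˣ := powMonoidHom p / (eU : (𝓞 F)ˣ →* (𝓞 L)ˣ).comp (nU F)
  have hdU : ∀ x, dU x = x ^ p / eU (nU F x) := fun x => rfl
  have hdker : ∀ x, dU x ∈ (nU F : (𝓞 L)ˣ →* (𝓞 F)ˣ).ker := by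
    intro x
    rw [MonoidHom.mem_ker, hdU, map_div, div_eq_one, map_pow, nU_eU, hKum.deg]
  have hdcg : ∀ N x, x ∈ cgs (I.map (algebraMap (𝓞 F) (𝓞 L)) ^ N) →
      dU x ∈ cgs (I.map (algebraMap (𝓞 F) (𝓞 L)) ^ N) := by
    intro N x hx
    rw [hdU]
    exact (cgs (I.map (algebraMap (𝓞 F) (𝓞 L)) ^ N)).div_mem
      ((cgs (I.map (algebraMap (𝓞 F) (𝓞 L)) ^ N)).pow_mem hx p) (enU_cgs I N x hx)
  have hC : ∀ i, ∃ C : Fin q → ℤ, nU F (ε i) ^ hFF = ∏ j, δ j ^ C j := by
    intro i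
    obtain ⟨c, hc⟩ := hFspan (nU F (ε i)) (Subgroup.mem_top _)
    refine ⟨fun j => c j * hFF, ?_⟩
    rw [hc, ← Finset.prod_pow]
    refine Finset.prod_congr rfl fun j _ => ?_
    rw [zpow_mul, zpow_natCast]
  have hC' : ∀ i, ∃ C : Fin P → ℤ, dU (ε i) ^ h = ∏ j, θ j ^ C j := by
    intro i
    obtain ⟨c, hc⟩ := hspan (dU (ε i)) (hdker _)
    refine ⟨fun j => c j * h, ?_⟩
    rw [hc, ← Finset.prod_pow]
    refine Finset.prod_congr rfl fun j _ => ?_
    rw [zpow_mul, zpow_natCast]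
  choose C hC using hC
  choose C' hC' using hC'
  -- relations
  have hspanrel : Submodule.span ℤ_[p] (Set.range a) ≤
      relMod p (I.map (algebraMap (𝓞 F) (𝓞 L))) ε := by
    rw [Submodule.span_le]
    rintro _ ⟨j, rfl⟩
    exact hrel j
  have hrelF : ∀ b, Rel p L (I.map (algebraMap (𝓞 F) (𝓞 L))) ε b → Rel p F I δ (lm p C b) := fun b hb =>
    rel_lm hFF C hC (rel_hom (nU F) (fun N x hx => nU_cgs I N x hx) hb)
  have hrelL : ∀ b, Rel p L (I.map (algebraMap (𝓞 F) (𝓞 L))) ε b →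
      Rel p L (I.map (algebraMap (𝓞 F) (𝓞 L))) θ (lm p C' b) := fun b hb =>
    rel_lm h C' hC' (rel_hom dU hdcg hb)
  obtain ⟨b, hb, hb2⟩ := la2 p s t n q a ha (lm p C) (by
    rintro ⟨x, hx, hx2⟩
    exact hF ⟨q, δ, hδ, fun i => lm p C (x i), hx2, fun i => hrelF _ (hspanrel (hx i))⟩)
  refine ⟨P, θ, h, hh0, fun i => nU_eq_one.1 (hθE i), hθ, fun η hη => ?_, fun i => lm p C' (b i), ?_,
    fun j => hrelL _ (hspanrel (hb2 j).1)⟩
  · exact hspan η (nU_eq_one.2 hη)
  · have hdis : Disjoint (Submodule.span ℤ_[p] (Set.range b)) (LinearMap.ker (lm p C')) := by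
      rw [Submodule.disjoint_def]
      intro x hx hx2
      have h1 : Submodule.span ℤ_[p] (Set.range b) ≤ LinearMap.ker (lm p C) := by
        rw [Submodule.span_le]
        rintro _ ⟨j, rfl⟩
        exact (hb2 j).2
      have h2 : lm p C x = 0 := h1 hx
      have h3 : lm p C' x = 0 := hx2
      refine inj_padic (ι := Fin q ⊕ Fin P) (fun i => Sum.elim (C i) (C' i)) ?_ x ?_
      · intro c hc
        have hc1 : ∀ j, ∑ i, c i * C i j = 0 := fun j => hc (Sum.inl j)
        have hc2 : ∀ j, ∑ i, c i * C' i j = 0 := fun j => hc (Sum.inr j)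
        obtain ⟨X, hX⟩ : ∃ X, X = ∏ i, ε i ^ c i := ⟨_, rfl⟩
        have g1 : nU F X ^ hFF = 1 := by
          have e1 : nU F X = ∏ i, nU F (ε i) ^ c i := by
            rw [hX, map_prod]
            exact Finset.prod_congr rfl fun i _ => map_zpow _ _ _
          rw [e1, prod_pow_comb _ δ hFF C hC]
          refine Finset.prod_eq_one fun j _ => ?_
          rw [hc1, zpow_zero]
        have g2 : dU X ^ h = 1 := by
          have e1 : dU X = ∏ i, dU (ε i) ^ c i := by
            rw [hX, map_prod]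
            exact Finset.prod_congr rfl fun i _ => map_zpow _ _ _
          rw [e1, prod_pow_comb _ θ h C' hC']
          refine Finset.prod_eq_one fun j _ => ?_
          rw [hc2, zpow_zero]
        have g3 : X ^ p = eU (nU F X) * dU X := by
          rw [hdU, mul_div_cancel]
        have g4 : X ^ (p * (hFF * h)) = 1 := by
          rw [pow_mul, g3, mul_pow]
          have e1 : (eU (nU F X) : (𝓞 L)ˣ) ^ (hFF * h) = 1 := by
            rw [pow_mul, ← map_pow, g1, map_one, one_pow]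
          have e2 : dU X ^ (hFF * h) = 1 := by
            rw [mul_comm, pow_mul, g2, one_pow]
          rw [e1, e2, mul_one]
        have g5 : ∏ i, ε i ^ (c i * ((p * (hFF * h) : ℕ) : ℤ)) = 1 := by
          rw [← g4, hX, ← Finset.prod_pow]
          refine Finset.prod_congr rfl fun i _ => ?_
          rw [zpow_mul, zpow_natCast]
        have g6 := hε _ g5
        funext i
        have g7 := congrFun g6 i
        have g8 : ((p * (hFF * h) : ℕ) : ℤ) ≠ 0 := by
          have : 0 < p * (hFF * h) := Nat.mul_pos hpp.pos (Nat.mul_pos hFF0 hh0)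
          exact_mod_cast this.ne'
        exact (mul_eq_zero.1 g7).resolve_right g8
      · rintro (j | j)
        · exact congrFun h2 j
        · exact congrFun h3 j
    exact hb.map hdis

end Pool.Agent.Q151.LKM
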